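import Mathlib
import Pool.Agent.H977.CP.General

set_option autoImplicit false

/-!
# Cycles of `T_{a,1}` and `T_{a,-1}` whose elements are composed of few primes

Let `a ≥ 3` be odd, `b = 1` or `b = -1`, and let `S` be a finite set of primes with `s` elements. The
cycles of `T_{a,b}` all of whose elements are products of powers of `2` and of primes of `S` (up to sign)
have together at most `2 * 3 ^ s` odd elements and at most `2 * 3 ^ s * log_2 (a + 1)` elements; at most
`2 ^ (k + 1) * (s choose k)` of the odd elements `z` are such that exactly `k` odd primes divide `z` or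
`T z`; and all elements are smaller than `a ^ (L (L + 3) / 2)` in absolute value if `a ^ s < 2 ^ L`.

So each of the maps `T_3`, `T_5` has only finitely many cycles composed of given primes, with explicit
bounds for their number, their length and their elements; a map with infinitely many cycles must
have arbitrarily large prime numbers dividing elements of its cycles.

Proof: for odd `x` the numbers `a x` and `a x + b = 2 T x` are consecutive, so that
`(2 a x + b) ^ 2 - D y ^ 2 = 1` where all prime divisors of `y` divide the cubefree number `D`; by Størmer's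
lemma `|2 a x + b|` is determined by `D`, and so is `x`, including its sign. The exponents of the prime
divisors of `a` in `D` are always the same. The bound for the elements uses that odd terms `x`, `T ^ n x`
of a trajectory have a greatest common divisor of at most `a ^ n`, and Hall's theorem, to find
different prime divisors of the odd ones among the last `L` terms before the largest one.
-/

namespace Pool.Agent.Results.MP_dee342_nt.CyclesOfFewPrimes

/-- The map `T_{a,b}` on the integers. -/
def T (a b x : ℤ) : ℤ := if x % 2 = 0 then x / 2 else (a * x + b) / 2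

/-- All odd prime divisors of `x` are in `S` (for finite `S` this implies `x ≠ 0`). -/
def PrimesIn (S : Finset ℕ) (x : ℤ) : Prop :=
  ∀ q : ℕ, q.Prime → q ≠ 2 → (q : ℤ) ∣ x → q ∈ S

/-- The set of the odd primes that divide `x`. -/
def oddPrimes (x : ℤ) : Finset ℕ := x.natAbs.primeFactors.erase 2

lemma not_zero {S : Finset ℕ} {x : ℤ} (h : PrimesIn S x) : x ≠ 0 := by
  rintro rfl
  obtain ⟨q, hq1, hq2⟩ := Nat.exists_infinite_primes (5 + ∑ a ∈ S, a)
  have hq : q ∈ S := h q hq2 (by omega) (dvd_zero _)
  have := Finset.single_le_sum (f := fun a => a) (fun i _ => Nat.zero_le i) hq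
  omega

lemma PP_eq {a : ℕ} (hao : a % 2 = 1) {b : ℤ} (hb : b = 1 ∨ b = -1) {x : ℤ} (hx : x % 2 = 1) :
    Pool.Agent.H977.CPG.PP a b x = oddPrimes (x * T a b x) := by
  unfold Pool.Agent.H977.CPG.PP oddPrimes
  have h1 : 2 * T a b x = a * x + b := Pool.Agent.H977.CPG.T_odd hao hb hx
  rw [← h1, show x * (2 * T a b x) = 2 * (x * T a b x) by ring, Int.natAbs_mul]
  ext q
  simp only [Finset.mem_erase, Nat.mem_primeFactors, ne_eq]
  constructor
  · rintro ⟨h2, h3, h4, h5⟩
    refine ⟨h2, h3, ?_, fun h => h5 (by rw [h, mul_zero])⟩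
    rcases (h3.dvd_mul).1 h4 with h | h
    · exact absurd ((Nat.prime_dvd_prime_iff_eq h3 Nat.prime_two).1 h) h2
    · exact h
  · rintro ⟨h2, h3, h4, h5⟩
    exact ⟨h2, h3, Dvd.dvd.mul_left h4 _, fun h => by
      rcases Nat.mul_eq_zero.1 h with h | h
      · exact absurd h (by decide)
      · exact h5 h⟩

/-- Let `a ≥ 3` be odd, `b = 1` or `b = -1`, and let `Z` be a finite union of cycles of `T_{a,b}` such
that all odd prime divisors of its elements are in the finite set `S`. Then (1) `Z` has at most
`2 * 3 ^ |S|` odd elements, (2) for each `k` at most `2 ^ (k + 1) * (|S| choose k)` odd elements `z` of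
`Z` are such that exactly `k` odd primes divide `z T(z)`, (3) `Z` has at most
`2 * 3 ^ |S| * log_2 (a + 1)` elements, and (4) all elements of `Z` are of absolute value less than
`a ^ (L (L + 3) / 2)` for every `L` with `a ^ |S| < 2 ^ L`. -/
theorem result (a : ℕ) (ha : 3 ≤ a) (hao : a % 2 = 1) (b : ℤ) (hb : b = 1 ∨ b = -1)
    (S : Finset ℕ) (Z : Finset ℤ) (hZ : Z.image (T a b) = Z) (hS : ∀ z ∈ Z, PrimesIn S z) :
    (Z.filter (fun z => z % 2 = 1)).card ≤ 2 * 3 ^ S.card ∧
    (∀ k : ℕ, (Z.filter (fun z => z % 2 = 1 ∧ (oddPrimes (z * T a b z)).card = k)).card ≤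
      2 ^ (k + 1) * S.card.choose k) ∧
    (Z.card : ℝ) ≤ 2 * 3 ^ S.card * Real.logb 2 (a + 1) ∧
    ∀ L : ℕ, a ^ S.card < 2 ^ L → ∀ z ∈ Z, |z| < (a : ℤ) ^ (L * (L + 3) / 2) := by
  have h0 : (0 : ℤ) ∉ Z := fun h => not_zero (hS 0 h) rfl
  have hodd : (Z.filter (fun z => z % 2 = 1)).card ≤ 2 * 3 ^ S.card := by
    apply Pool.Agent.H977.CPG.count_all ha hao hb S
    intro z hz
    rw [Finset.mem_filter] at hz
    exact Pool.Agent.H977.CPG.good_of hZ hao hb h0 hS hz.1 hz.2
  refine ⟨hodd, ?_, ?_, ?_⟩
  · intro k
    rw [mul_comm]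
    apply Pool.Agent.H977.CPG.count_k ha hao hb S k
    intro z hz
    rw [Finset.mem_filter] at hz
    refine ⟨Pool.Agent.H977.CPG.good_of hZ hao hb h0 hS hz.1 hz.2.1, ?_⟩
    rw [PP_eq hao hb hz.2.1]
    exact hz.2.2
  · have h1 := Pool.Agent.H977.CPG.card_pow_le hZ ha hao hb h0
    have h2 : (2 : ℕ) ^ Z.card ≤ (a + 1) ^ (2 * 3 ^ S.card) :=
      h1.trans (Nat.pow_le_pow_right (by omega) hodd)
    have h3 : (2 : ℝ) ^ Z.card ≤ ((a : ℝ) + 1) ^ (2 * 3 ^ S.card) := by exact_mod_cast h2
    have h4 := Real.logb_le_logb_of_le (b := 2) (by norm_num) (by positivity) h3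
    rw [Real.logb_pow, Real.logb_pow, Real.logb_self_eq_one (by norm_num), mul_one] at h4
    push_cast at h4
    exact h4
  · intro L hL z hz
    have h1 := Pool.Agent.H977.CPG.height hZ ha hao hb h0 hS hL z hz
    rw [← Int.natCast_natAbs]
    exact_mod_cast h1

end Pool.Agent.Results.MP_dee342_nt.CyclesOfFewPrimes
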