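import Mathlib
import Pool.Agent.H977.PW.CycleSets

set_option autoImplicit false

/-!
# Perfect powers in the cycles of `T_{a,b}`

Let `a ≠ 1, -1` and `b` be odd, `S` a finite set of primes and `K` a positive integer. Consider the odd
integers `u y ^ k` where `2 ≤ k ≤ K` and `u` is composed of primes of `S`. In a cycle of `T_{a,b}` all of
whose `p` elements are of absolute value at least `m` at most `C p / log m` elements are of this form.
So the proportion of such elements exceeds a given positive number for finitely many cycles only, and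
only finitely many cycles have all their odd elements of this form.

Proof: for the terms `z_i` of a trajectory of `x` and `i ≤ c log |x|` the numbers `a^(K-k_i) 2^(h_i) z_i`
are different integers which differ from each other by less than `|x| ^ (1/8)`. If two of them were
`c Y ^ k` and `c' Z ^ k` with `k ≥ 3` and bounded `c`, `c'`, then `Y / Z` would be too close to the
algebraic number `(c' / c) ^ (1/k)`: this contradicts Roth's theorem, or it is elementary if this number
is rational. If three of them are of the form `c Y ^ 2`, this contradicts the subspace theorem for three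
linear forms with quadratic coefficients, again except for the case of rational quotients. So there are at
most `π(K) + 1` terms of this form in the piece, and it remains to cut the cycle into pieces of length
`c log m`; by the cycle equation a cycle is not much shorter than the logarithms of its elements.
-/

namespace Pool.Agent.Results.MP_dee342_nt.PowersInCycles

open Finset

/-- The map `T_{a,b}` on the integers. -/
def T (a b x : ℤ) : ℤ := if x % 2 = 0 then x / 2 else (a * x + b) / 2

/-- `Z` is a cycle (periodic orbit) of `T_{a,b}`. -/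
def IsCycle (a b : ℤ) (Z : Finset ℤ) : Prop :=
  ∃ x : ℤ, ∃ p : ℕ, 1 ≤ p ∧ (T a b)^[p] x = x ∧ Z = (range p).image fun i => (T a b)^[i] x

/-- `z = u * y ^ k` with `2 ≤ k ≤ K` and an integer `u` all of whose prime divisors are in `S`, and `z` is
odd. -/
def UnitTimesPower (S : Finset ℕ) (K : ℕ) (z : ℤ) : Prop :=
  z % 2 = 1 ∧ ∃ k : ℕ, 2 ≤ k ∧ k ≤ K ∧ ∃ u y : ℤ, z = u * y ^ k ∧
    ∀ p : ℕ, p.Prime → (p : ℤ) ∣ u → p ∈ S

lemma T_eq (a b : ℤ) : T a b = Pool.Agent.H977.SP.G a b 1 := by
  funext x
  unfold T Pool.Agent.H977.SP.G
  rw [pow_one]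

open Classical in
/-- Let `a`, `b` be odd, `a ≠ 1, -1`, `S` a finite set and `K` a natural number. (1) There is `C` such that
for every cycle `Z` of `T_{a,b}` all of whose elements are of absolute value at least `m ≥ 2` at most
`C |Z| / log m` elements of `Z` are odd and of the form `u y ^ k` with `2 ≤ k ≤ K` and `u` composed of
primes of `S`. (2) For every `η > 0` only finitely many cycles have more than `η |Z|` such elements.
(3) Only finitely many cycles have all their odd elements of this form. -/
theorem result (a b : ℤ) (ha : a % 2 = 1) (ha3 : a ≠ 1 ∧ a ≠ -1) (hb : b % 2 = 1)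
    (S : Finset ℕ) (K : ℕ) :
    (∃ C : ℝ, ∀ Z : Finset ℤ, IsCycle a b Z → ∀ m : ℕ, 2 ≤ m → (∀ z ∈ Z, (m : ℤ) ≤ |z|) →
      ((Z.filter (UnitTimesPower S K)).card : ℝ) ≤ C * Z.card / Real.log m) ∧
    (∀ η : ℝ, 0 < η →
      {Z : Finset ℤ | IsCycle a b Z ∧ η * Z.card < (Z.filter (UnitTimesPower S K)).card}.Finite) ∧
    {Z : Finset ℤ | IsCycle a b Z ∧ ∀ z ∈ Z, z % 2 = 1 → UnitTimesPower S K z}.Finite := by
  unfold IsCycle
  rw [T_eq]
  exact ⟨Pool.Agent.H977.PW.cyc_bound ha hb ha3 S K,
    fun η hη => Pool.Agent.H977.PW.cyc_finite ha hb ha3 S K η hη,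
    Pool.Agent.H977.PW.cyc_all_finite ha hb ha3 S K⟩

end Pool.Agent.Results.MP_dee342_nt.PowersInCycles
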