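import Mathlib
import Pool.Agent.H977.RK.Rank
import Pool.Agent.H977.CP.General

set_option autoImplicit false

/-!
# The multiplicative rank of the cycles of `T_{a,1}` and `T_{a,-1}`

Let `a ≥ 3` be odd, `b = 1` or `b = -1`, and let `Z` be a finite union of cycles of `T_{a,b}` which does
not contain `0`. If the elements of `Z` generate a subgroup of rank `r` of the multiplicative group of
the rational numbers, then `Z` has at most `2 ^ r * (r + 1)` odd elements and at most
`2 ^ r * (r + 1) * log_2 (a + 1)` elements. In particular `T_{a,b}` has only finitely many cycles if and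
only if the multiplicative group generated by its nonzero periodic points is finitely generated.

Proof: for odd `x` the numbers `a x` and `a x + b = 2 T x` are consecutive, so that
`(2 a x + b) ^ 2 - 1 = 8 a x T(x)`. If `H` is a group of rank `r` then the square-free part `D` of a
positive integer of a coset of `H` takes at most `2 ^ r` values. For given `D` the numbers `|2 a x + b|`
are terms `X_n` of the sequence of solutions of `X ^ 2 - D Y ^ 2 = 1`, and the quotients of the
corresponding `Y_n` have their squares in `H`. By a theorem on primitive prime divisors (proved in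
`Pool.Agent.H977.RK.Prim`) every `Y_n`, `n ≥ 2`, is divisible by a prime number which does not divide
`Y_1, …, Y_(n-1)`. So the quotients by the first of the numbers are multiplicatively independent, and
there are at most `r + 1` numbers for every `D`.
-/

namespace Pool.Agent.Results.MP_dee342_nt.RankOfCycles

/-- The map `T_{a,b}` on the integers. -/
def T (a b x : ℤ) : ℤ := if x % 2 = 0 then x / 2 else (a * x + b) / 2

/-- The rank of the subgroup of the multiplicative group of `ℚ` generated by the nonzero elements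
of `Z`. -/
noncomputable def rank (Z : Finset ℤ) : ℕ :=
  Module.finrank ℤ (Additive (Subgroup.closure {u : ℚˣ | ∃ z ∈ Z, (u : ℚ) = z}))

/-- `x` is a periodic point of `T_{a,b}`. -/
def Periodic (a b x : ℤ) : Prop := ∃ p : ℕ, 1 ≤ p ∧ (T a b)^[p] x = x

/-- The subgroup of the multiplicative group of `ℚ` generated by the nonzero periodic points. -/
def periodicGroup (a b : ℤ) : Subgroup ℚˣ :=
  Subgroup.closure {u : ℚˣ | ∃ x : ℤ, Periodic a b x ∧ (u : ℚ) = x}

lemma counts (a : ℕ) (ha : 3 ≤ a) (hao : a % 2 = 1) (b : ℤ) (hb : b = 1 ∨ b = -1)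
    (Z : Finset ℤ) (hZ : Z.image (T a b) = Z) (h0 : (0 : ℤ) ∉ Z) :
    (Z.filter (fun z => z % 2 = 1)).card ≤ 2 ^ rank Z * (rank Z + 1) ∧
    (Z.card : ℝ) ≤ 2 ^ rank Z * (rank Z + 1) * Real.logb 2 (a + 1) := by
  have hodd : (Z.filter (fun z => z % 2 = 1)).card ≤ 2 ^ rank Z * (rank Z + 1) := by
    refine Pool.Agent.H977.RK.odd_count a (by omega) b hb Z _ (T a b) ?_
    intro z hz
    rw [Finset.mem_filter] at hz
    have hzT : T a b z ∈ Z := Pool.Agent.H977.CPG.closed_T (a := a) (b := b) hZ hz.1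
    exact ⟨hz.1, hzT, fun h => h0 (h ▸ hz.1), fun h => h0 (h ▸ hzT),
      Pool.Agent.H977.CPG.T_odd hao hb hz.2⟩
  refine ⟨hodd, ?_⟩
  have h1 := Pool.Agent.H977.CPG.card_pow_le (a := a) (b := b) hZ ha hao hb h0
  have h2 : (2 : ℕ) ^ Z.card ≤ (a + 1) ^ (2 ^ rank Z * (rank Z + 1)) :=
    h1.trans (Nat.pow_le_pow_right (by omega) hodd)
  have h3 : (2 : ℝ) ^ Z.card ≤ ((a : ℝ) + 1) ^ (2 ^ rank Z * (rank Z + 1)) := by exact_mod_cast h2
  have h4 := Real.logb_le_logb_of_le (b := 2) (by norm_num) (by positivity) h3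
  rw [Real.logb_pow, Real.logb_pow, Real.logb_self_eq_one (by norm_num), mul_one] at h4
  push_cast at h4
  exact h4

lemma T_zero (a b : ℤ) : T a b 0 = 0 := by simp [T]

lemma it_zero (a b : ℤ) (n : ℕ) : (T a b)^[n] 0 = 0 := by
  induction n with
  | zero => rfl
  | succ n ih => rw [Function.iterate_succ_apply', ih, T_zero]

/-- every finite set of nonzero periodic points is contained in a finite union of cycles -/
lemma union (a b : ℤ) (F : Finset ℤ) (hF : ∀ x ∈ F, x ≠ 0 ∧ Periodic a b x) :
    ∃ Z : Finset ℤ, F ⊆ Z ∧ Z.image (T a b) = Z ∧ (0 : ℤ) ∉ Z ∧ ∀ z ∈ Z, Periodic a b z := by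
  classical
  have hex : ∀ x : ℤ, ∃ p : ℕ, x ∈ F → (1 ≤ p ∧ (T a b)^[p] x = x) := by
    intro x
    by_cases hx : x ∈ F
    · obtain ⟨p, hp⟩ := (hF x hx).2
      exact ⟨p, fun _ => hp⟩
    · exact ⟨0, fun h => absurd h hx⟩
  choose p hp using hex
  have hper : ∀ x ∈ F, ∀ i : ℕ, (T a b)^[p x] ((T a b)^[i] x) = (T a b)^[i] x := by
    intro x hx i
    rw [← Function.iterate_add_apply, add_comm, Function.iterate_add_apply, (hp x hx).2]
  refine ⟨F.biUnion fun x => (Finset.range (p x)).image fun i => (T a b)^[i] x, ?_, ?_, ?_, ?_⟩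
  · intro x hx
    rw [Finset.mem_biUnion]
    exact ⟨x, hx, Finset.mem_image.2 ⟨0, Finset.mem_range.2 (hp x hx).1, rfl⟩⟩
  · ext z
    simp only [Finset.mem_image, Finset.mem_biUnion, Finset.mem_range]
    constructor
    · rintro ⟨w, ⟨x, hx, i, hi, rfl⟩, rfl⟩
      refine ⟨x, hx, ?_⟩
      rcases Nat.lt_or_ge (i + 1) (p x) with h | h
      · exact ⟨i + 1, h, Function.iterate_succ_apply' _ _ _⟩
      · have h2 : i + 1 = p x := by omega
        refine ⟨0, (hp x hx).1, ?_⟩
        rw [← Function.iterate_succ_apply' (T a b), Nat.succ_eq_add_one, h2, (hp x hx).2]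
        rfl
    · rintro ⟨x, hx, i, hi, rfl⟩
      rcases Nat.eq_zero_or_pos i with h0 | h0
      · subst h0
        refine ⟨(T a b)^[p x - 1] x, ⟨x, hx, p x - 1, by have := (hp x hx).1; omega, rfl⟩, ?_⟩
        rw [← Function.iterate_succ_apply' (T a b)]
        have h2 : p x - 1 + 1 = p x := by have := (hp x hx).1; omega
        rw [Nat.succ_eq_add_one, h2, (hp x hx).2]
        rfl
      · refine ⟨(T a b)^[i - 1] x, ⟨x, hx, i - 1, by omega, rfl⟩, ?_⟩
        rw [← Function.iterate_succ_apply' (T a b)]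
        have h2 : i - 1 + 1 = i := by omega
        rw [Nat.succ_eq_add_one, h2]
  · intro h
    simp only [Finset.mem_image, Finset.mem_biUnion, Finset.mem_range] at h
    obtain ⟨x, hx, i, hi, h⟩ := h
    apply (hF x hx).1
    have h2 : p x = (p x - i) + i := by omega
    rw [← (hp x hx).2, h2, Function.iterate_add_apply, h, it_zero]
  · intro z hz
    simp only [Finset.mem_image, Finset.mem_biUnion, Finset.mem_range] at hz
    obtain ⟨x, hx, i, hi, rfl⟩ := hz
    exact ⟨p x, (hp x hx).1, hper x hx i⟩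

lemma rank_le (a b : ℤ) (hfg : (periodicGroup a b).FG) (Z : Finset ℤ) (hZ : ∀ z ∈ Z, Periodic a b z) :
    rank Z ≤ Module.finrank ℤ (Additive (periodicGroup a b)) := by
  have h1 : Group.FG (periodicGroup a b) := (Group.fg_iff_subgroup_fg _).2 hfg
  have h2 : AddGroup.FG (Additive (periodicGroup a b)) := GroupFG.iff_add_fg.1 h1
  have h3 : Module.Finite ℤ (Additive (periodicGroup a b)) := Module.Finite.iff_addGroup_fg.2 h2
  have hle : Subgroup.closure {u : ℚˣ | ∃ z ∈ Z, (u : ℚ) = z} ≤ periodicGroup a b := by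
    apply Subgroup.closure_mono
    rintro u ⟨z, hz, hu⟩
    exact ⟨z, hZ z hz, hu⟩
  let f : Additive (Subgroup.closure {u : ℚˣ | ∃ z ∈ Z, (u : ℚ) = z}) →ₗ[ℤ]
      Additive (periodicGroup a b) :=
    (MonoidHom.toAdditive (Subgroup.inclusion hle)).toIntLinearMap
  have hf : Function.Injective f := Subgroup.inclusion_injective hle
  exact LinearMap.finrank_le_finrank_of_injective hf

/-- Let `a ≥ 3` be odd, `b = 1` or `b = -1`. (1) Let `Z` be a finite union of cycles of `T_{a,b}` in the
nonzero integers, and let `r` be the rank of the group generated by the elements of `Z`. Then `Z` has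
at most `2 ^ r * (r + 1)` odd elements and at most `2 ^ r * (r + 1) * log_2 (a + 1)` elements.
(2) `T_{a,b}` has only finitely many cycles if and only if the multiplicative group generated by its
nonzero periodic points is finitely generated. -/
theorem result (a : ℕ) (ha : 3 ≤ a) (hao : a % 2 = 1) (b : ℤ) (hb : b = 1 ∨ b = -1) :
    (∀ Z : Finset ℤ, Z.image (T a b) = Z → (0 : ℤ) ∉ Z →
      (Z.filter (fun z => z % 2 = 1)).card ≤ 2 ^ rank Z * (rank Z + 1) ∧
      (Z.card : ℝ) ≤ 2 ^ rank Z * (rank Z + 1) * Real.logb 2 (a + 1)) ∧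
    ({x : ℤ | Periodic a b x}.Finite ↔ (periodicGroup a b).FG) := by
  refine ⟨fun Z hZ h0 => counts a ha hao b hb Z hZ h0, ?_, ?_⟩
  · intro hfin
    have h1 : {u : ℚˣ | ∃ x : ℤ, Periodic a b x ∧ (u : ℚ) = x}.Finite := by
      have h2 : {u : ℚˣ | ∃ x : ℤ, Periodic a b x ∧ (u : ℚ) = x} =
          (Units.val : ℚˣ → ℚ) ⁻¹' ((fun z : ℤ => (z : ℚ)) '' {x : ℤ | Periodic a b x}) := by
        ext u
        simp only [Set.mem_ofPred_eq, Set.mem_preimage, Set.mem_image]
        constructor
        · rintro ⟨z, hz, h⟩; exact ⟨z, hz, h.symm⟩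
        · rintro ⟨z, hz, h⟩; exact ⟨z, hz, h.symm⟩
      rw [h2]
      exact (hfin.image _).preimage Units.val_injective.injOn
    exact ⟨h1.toFinset, by rw [Set.Finite.coe_toFinset]; rfl⟩
  · intro hfg
    by_contra hinf
    have hinf' : ({x : ℤ | Periodic a b x} \ {0}).Infinite :=
      Set.Infinite.sdiff hinf (Set.finite_singleton 0)
    set r := Module.finrank ℤ (Additive (periodicGroup a b)) with hr
    obtain ⟨N, hN⟩ := exists_nat_gt ((2 : ℝ) ^ r * (r + 1) * Real.logb 2 (a + 1))
    obtain ⟨F, hF1, hF2⟩ := hinf'.exists_subset_card_eq N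
    obtain ⟨Z, h1, h2, h3, h4⟩ := union a b F (fun x hx => ⟨(hF1 hx).2, (hF1 hx).1⟩)
    have h5 := (counts a ha hao b hb Z h2 h3).2
    have h6 := rank_le a b hfg Z h4
    have h7 : (N : ℝ) ≤ Z.card := by rw [← hF2]; exact_mod_cast Finset.card_le_card h1
    have h8 : 0 ≤ Real.logb 2 ((a : ℝ) + 1) := Real.logb_nonneg (by norm_num) (by
      have : (3 : ℝ) ≤ a := by exact_mod_cast ha
      linarith)
    have h9 : (2 : ℝ) ^ rank Z * (rank Z + 1) * Real.logb 2 (a + 1) ≤
        (2 : ℝ) ^ r * (r + 1) * Real.logb 2 (a + 1) := by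
      apply mul_le_mul_of_nonneg_right _ h8
      have h10 : 2 ^ rank Z * (rank Z + 1) ≤ 2 ^ r * (r + 1) :=
        Nat.mul_le_mul (Nat.pow_le_pow_right (by norm_num) h6) (by omega)
      exact_mod_cast h10
    linarith

end Pool.Agent.Results.MP_dee342_nt.RankOfCycles
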