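import Mathlib
import Pool.Agent.H977.PW.Shift

set_option autoImplicit false

/-!
# The part composed of given primes of the products `∏ (z - c)` over the cycles of `T_{a,b}`

Let `a`, `b` be odd, `S` a finite set of primes, `[n]` the largest divisor of `n` composed of primes of
`S`, and `c` an integer.  For every `δ > 0` all but finitely many cycles `Z` of `T_{a,b}` satisfy

`∏ [z - c] ≤ (∏_{z ∈ Z odd} |z|) ^ δ`,

where the product on the left is over all `z ∈ Z` if `c` is not a periodic point of `T_{a,b}`, and over the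
`z ∈ Z` with `z ≢ c mod 2^n` if `c` is periodic with period `n`; for `c = 0` these are the odd elements.

In particular: for all but finitely many cycles the product `P` of the odd elements satisfies
`[P] ≤ |P|^δ`, and if `c` is not periodic, then so does the value `P` at `c` of the polynomial with the
zeros `Z`.

Proof: let `|x|` be large and `i ≤ γ log |x|`, and let `z_i` be the terms of the trajectory of `x`.  The
numbers `a^(K-k_i) 2^i (z_i - c)` are different integers near to `a^K x`: if two of them, with `i < j`, are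
equal, then `c` is periodic with period `j - i` and `z_i ≡ c mod 2^(j-i)`.  By Ridout's theorem with
moving targets (from the subspace theorem) the product of the `[z_i - c]` over any `m` of these `i` is at
most `|x|^2`.  So all but `m` of them are at most `|x|^(2/m)`.  This is summed over all pieces of fixed
length of the cycle.  The sum of the squares of the logarithms of the elements is the same for `Z` and
`T(Z)`; this bounds the contribution of the even elements by that of the odd ones.
-/

namespace Pool.Agent.Results.MP_dee342_nt.SmallSParts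

open Finset

/-- The map `T_{a,b}` on the integers. -/
def T (a b x : ℤ) : ℤ := if x % 2 = 0 then x / 2 else (a * x + b) / 2

/-- `Z` is a cycle (periodic orbit) of `T_{a,b}`. -/
def IsCycle (a b : ℤ) (Z : Finset ℤ) : Prop :=
  ∃ x : ℤ, ∃ p : ℕ, 1 ≤ p ∧ (T a b)^[p] x = x ∧ Z = (range p).image fun i => (T a b)^[i] x

/-- The part of `x` composed of the primes in `S`. -/
def sPart (S : Finset ℕ) (x : ℤ) : ℕ := ∏ p ∈ S, p ^ (x.natAbs.factorization p)

/-- If `c` is periodic with period `n`, then `z` and `c` are different modulo `2^n`. -/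
def Away (a b c z : ℤ) : Prop :=
  ∀ n : ℕ, 1 ≤ n → (T a b)^[n] c = c → ¬ ((2 : ℤ) ^ n ∣ z - c)

/-- The product of the odd elements of `Z`. -/
def oddProd (Z : Finset ℤ) : ℤ := ∏ z ∈ Z.filter (fun z => z % 2 = 1), z

lemma T_eq (a b : ℤ) : T a b = Pool.Agent.H977.SP.G a b 1 := by
  funext x
  unfold T Pool.Agent.H977.SP.G
  rw [pow_one]

lemma sPart_mul (S : Finset ℕ) (x y : ℤ) (hx : x ≠ 0) (hy : y ≠ 0) :
    sPart S (x * y) = sPart S x * sPart S y := by
  unfold sPart
  rw [← Finset.prod_mul_distrib]
  refine Finset.prod_congr rfl fun p _ => ?_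
  rw [Int.natAbs_mul, Nat.factorization_mul (Int.natAbs_ne_zero.2 hx) (Int.natAbs_ne_zero.2 hy),
    Finsupp.add_apply, pow_add]

lemma sPart_prod (S : Finset ℕ) (s : Finset ℤ) (f : ℤ → ℤ) (hf : ∀ z ∈ s, f z ≠ 0) :
    sPart S (∏ z ∈ s, f z) = ∏ z ∈ s, sPart S (f z) := by
  induction s using Finset.induction_on with
  | empty => simp [sPart]
  | insert z s hz ih =>
    rw [Finset.prod_insert hz, Finset.prod_insert hz, sPart_mul, ih]
    · exact fun w hw => hf w (Finset.mem_insert_of_mem hw)
    · exact hf z (Finset.mem_insert_self _ _)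
    · exact Finset.prod_ne_zero_iff.2 fun w hw => hf w (Finset.mem_insert_of_mem hw)

lemma away_zero (a b z : ℤ) : Away a b 0 z ↔ z % 2 = 1 := by
  unfold Away
  constructor
  · intro h
    have h1 := h 1 le_rfl (by simp [T])
    rw [sub_zero, pow_one] at h1
    omega
  · intro h n hn _ hd
    rw [sub_zero] at hd
    have : (2 : ℤ) ∣ z := (dvd_pow_self 2 (by omega)).trans hd
    omega

lemma abs_oddProd (Z : Finset ℤ) :
    |(oddProd Z : ℝ)| = ∏ z ∈ Z.filter (fun z => z % 2 = 1), |(z : ℝ)| := by
  unfold oddProd
  push_cast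
  rw [Finset.abs_prod]

open Classical in
/-- Let `a`, `b` be odd, `c` an integer, `S` a finite set and `δ > 0`. (1) All but finitely many cycles
`Z` of `T_{a,b}` satisfy `∏ [z - c] ≤ |P|^δ`, where `P` is the product of the odd elements of `Z` and the
other product is over the `z ∈ Z` with `Away a b c z`. (2) All but finitely many of them satisfy
`[P] ≤ |P|^δ`. (3) If `c` is not periodic, then all but finitely many of them satisfy `[Q] ≤ |Q|^δ` for
`Q = ∏ (z - c)`, the product over `z ∈ Z`. -/
theorem result (a b : ℤ) (ha : a % 2 = 1) (hb : b % 2 = 1) (c : ℤ) (S : Finset ℕ) (δ : ℝ)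
    (hδ : 0 < δ) :
    {Z : Finset ℤ | IsCycle a b Z ∧
      |(oddProd Z : ℝ)| ^ δ < ∏ z ∈ Z.filter (Away a b c), (sPart S (z - c) : ℝ)}.Finite ∧
    {Z : Finset ℤ | IsCycle a b Z ∧ |(oddProd Z : ℝ)| ^ δ < sPart S (oddProd Z)}.Finite ∧
    ((∀ n : ℕ, 1 ≤ n → (T a b)^[n] c ≠ c) → {Z : Finset ℤ | IsCycle a b Z ∧
      |((∏ z ∈ Z, (z - c) : ℤ) : ℝ)| ^ δ < sPart S (∏ z ∈ Z, (z - c))}.Finite) := by
  have hcyc : ∀ Z, IsCycle a b Z ↔ Pool.Agent.H977.PW.IsCyc (Pool.Agent.H977.SP.G a b 1) Z := by
    intro Z
    unfold IsCycle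
    rw [T_eq]
    exact Iff.rfl
  have haway : ∀ e, Away a b e = Pool.Agent.H977.PW.Away a b e := by
    intro e
    funext z
    unfold Away
    rw [T_eq]
    rfl
  have main : ∀ (e : ℤ) (δ : ℝ), 0 < δ → {Z : Finset ℤ | IsCycle a b Z ∧
      |(oddProd Z : ℝ)| ^ δ < ∏ z ∈ Z.filter (Away a b e), (sPart S (z - e) : ℝ)}.Finite := by
    intro e δ hδ
    apply (Pool.Agent.H977.PW.sprodc ha hb e S δ hδ).subset
    rintro Z ⟨h1, h2⟩
    refine ⟨(hcyc Z).1 h1, ?_⟩
    rw [abs_oddProd] at h2
    refine lt_of_lt_of_le h2 (le_of_eq ?_)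
    have h3 : Z.filter (Away a b e) = Z.filter (Pool.Agent.H977.PW.Away a b e) := by
      apply Finset.filter_congr
      intro z _
      rw [haway]
    rw [h3]
    rfl
  refine ⟨main c δ hδ, ?_, ?_⟩
  · apply (main 0 δ hδ).subset
    rintro Z ⟨h1, h2⟩
    refine ⟨h1, lt_of_lt_of_le h2 (le_of_eq ?_)⟩
    have h3 : Z.filter (Away a b 0) = Z.filter (fun z => z % 2 = 1) := by
      apply Finset.filter_congr
      intro z _
      exact away_zero a b z
    rw [h3]
    unfold oddProd
    rw [sPart_prod S _ (fun z => z) (by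
      rintro z hz rfl
      have := (Finset.mem_filter.1 hz).2
      omega)]
    push_cast
    refine Finset.prod_congr rfl fun z _ => ?_
    rw [sub_zero]
  · intro hc
    obtain ⟨M, hM⟩ : ∃ M : ℕ, M = (2 * c.natAbs + 4) := ⟨_, rfl⟩
    apply ((main c (δ / 2) (by positivity)).union
      (Pool.Agent.H977.PW.small_finite (Pool.Agent.H977.SP.G a b 1) M)).subset
    rintro Z ⟨h1, h2⟩
    by_cases hs : ∃ z ∈ Z, |z| < (M : ℤ)
    · exact Or.inr ⟨(hcyc Z).1 h1, hs⟩
    · left
      push Not at hs
      refine ⟨h1, ?_⟩
      have hMz : ∀ z ∈ Z, 2 * |c| + 4 ≤ |z| := by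
        intro z hz
        have := hs z hz
        rw [hM] at this
        push_cast at this
        exact this
      have hne : ∀ z ∈ Z, z - c ≠ 0 := by
        intro z hz h
        have h3 := hMz z hz
        have h4 : z = c := by linarith
        rw [h4] at h3
        have := abs_nonneg c
        linarith
      have hfil : Z.filter (Away a b c) = Z := by
        apply Finset.filter_true_of_mem
        intro z _ n hn hn2
        exact absurd hn2 (hc n hn)
      rw [hfil]
      rw [sPart_prod S Z (fun z => z - c) hne] at h2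
      push_cast at h2
      refine lt_of_le_of_lt ?_ h2
      -- comparison of the products
      have h5 : |(oddProd Z : ℝ)| ≤ |∏ z ∈ Z, ((z : ℝ) - c)| ^ 2 := by
        rw [abs_oddProd, Finset.abs_prod, ← Finset.prod_pow]
        have h6 : ∏ z ∈ Z.filter (fun z => z % 2 = 1), |(z : ℝ)| ≤ ∏ z ∈ Z, |(z : ℝ)| := by
          rw [← Finset.prod_filter_mul_prod_filter_not Z (fun z => z % 2 = 1)]
          apply le_mul_of_one_le_right (Finset.prod_nonneg fun _ _ => abs_nonneg _)
          have h7 : ∏ z ∈ Z.filter (fun z => ¬ z % 2 = 1), (1 : ℝ) ≤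
              ∏ z ∈ Z.filter (fun z => ¬ z % 2 = 1), |(z : ℝ)| := by
            apply Finset.prod_le_prod (fun _ _ => zero_le_one)
            intro z hz
            have h8 := hMz z (Finset.mem_filter.1 hz).1
            have h9 : 1 ≤ |z| := by
              have := abs_nonneg c
              linarith
            rw [← Int.cast_abs]
            exact_mod_cast h9
          rwa [Finset.prod_const_one] at h7
        refine h6.trans (Finset.prod_le_prod (fun _ _ => abs_nonneg _) ?_)
        intro z hz
        have h7 := hMz z hz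
        have h8 : |z| ≤ |z - c| ^ 2 := by
          have h9 : |z| ≤ |z - c| + |c| := by
            have := abs_add_le (z - c) c
            rwa [sub_add_cancel] at this
          have h10 := abs_nonneg c
          nlinarith
        have h9 : |(z : ℝ)| ≤ |((z - c : ℤ) : ℝ)| ^ 2 := by
          rw [← Int.cast_abs, ← Int.cast_abs]
          exact_mod_cast h8
        push_cast at h9
        exact h9
      calc |(oddProd Z : ℝ)| ^ (δ / 2) ≤ (|∏ z ∈ Z, ((z : ℝ) - c)| ^ 2) ^ (δ / 2) :=
            Real.rpow_le_rpow (abs_nonneg _) h5 (by positivity)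
        _ = |∏ z ∈ Z, ((z : ℝ) - c)| ^ δ := by
            rw [← Real.rpow_natCast, ← Real.rpow_mul (abs_nonneg _)]
            congr 1
            push_cast
            ring

end Pool.Agent.Results.MP_dee342_nt.SmallSParts
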